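import Mathlib

set_option autoImplicit false

namespace Pool.Agent.Results.MP_6784b8_co.SpiderSuspension

open Finset

/-- The suspension `Ĥ`: one new vertex `none` joined to every vertex of `H`. -/
def susp {V : Type} (H : SimpleGraph V) : SimpleGraph (Option V) where
  Adj x y := match x, y with
    | none, none => False
    | none, some _ => True
    | some _, none => True
    | some u, some v => H.Adj u v
  symm := ⟨by
    rintro (_ | u) (_ | v) h
    · exact h
    · trivial
    · trivial
    · exact SimpleGraph.Adj.symm h⟩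
  loopless := ⟨by
    rintro (_ | u) h
    · exact h
    · exact SimpleGraph.irrefl H h⟩

/-- `k` is the size of the smaller colour class in a proper 2-colouring of `T`. -/
def SmallerClass {V : Type} (T : SimpleGraph V) (k : ℕ) : Prop :=
  ∃ c : V → Bool, (∀ u v, T.Adj u v → c u ≠ c v) ∧
    Nat.card {v // c v = true} = k ∧ k ≤ Nat.card {v // c v = false}

/-- `f(n,k) = max { n₀n₁ + ⌊(k-1)n₀/2⌋ : n₀ + n₁ = n }`. -/
def f (n k : ℕ) : ℕ := (range (n + 1)).sup (fun n0 => n0 * (n - n0) + (k - 1) * n0 / 2)

/-! ### Trees given by a parent function -/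

lemma isTree_of_parent {V : Type} [Fintype V] (r : V) (par : V → V) (d : V → ℕ)
    (hd : ∀ v, v ≠ r → d (par v) < d v) (G : SimpleGraph V)
    (hG : ∀ u v, G.Adj u v ↔ (u ≠ r ∧ v = par u) ∨ (v ≠ r ∧ u = par v)) : G.IsTree := by
  classical
  rw [SimpleGraph.isTree_iff_connected_and_card]
  constructor
  · have hreach : ∀ n : ℕ, ∀ v, d v < n → G.Reachable v r := by
      intro n
      induction n with
      | zero => intro v hv; omega
      | succ n ih =>
        intro v hv
        by_cases hvr : v = r
        · rw [hvr]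
        · have h1 := ih (par v) (by have := hd v hvr; omega)
          exact ((hG v (par v)).mpr (Or.inl ⟨hvr, rfl⟩)).reachable.trans h1
    have : Nonempty V := ⟨r⟩
    exact ⟨fun u v => (hreach _ u (Nat.lt_succ_self _)).trans (hreach _ v (Nat.lt_succ_self _)).symm⟩
  · let g : {v : V // v ≠ r} → G.edgeSet := fun v =>
      ⟨s(v.1, par v.1), by
        rw [SimpleGraph.mem_edgeSet]
        exact (hG _ _).mpr (Or.inl ⟨v.2, rfl⟩)⟩
    have hg : Function.Bijective g := by
      constructor
      · intro u v huv
        have h1 : s(u.1, par u.1) = s(v.1, par v.1) := congrArg Subtype.val huv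
        rw [Sym2.eq_iff] at h1
        rcases h1 with ⟨h1, _⟩ | ⟨h1, h2⟩
        · exact Subtype.ext h1
        · exfalso
          have a := hd u.1 u.2
          have b := hd v.1 v.2
          rw [h2] at a
          rw [← h1] at b
          omega
      · rintro ⟨e, he⟩
        induction e using Sym2.ind with
        | _ u v =>
          rw [SimpleGraph.mem_edgeSet] at he
          rcases (hG u v).mp he with ⟨h1, h2⟩ | ⟨h1, h2⟩
          · exact ⟨⟨u, h1⟩, Subtype.ext (by simp only [g]; rw [h2])⟩
          · exact ⟨⟨v, h1⟩, Subtype.ext (by simp only [g]; rw [h2]; exact Sym2.eq_swap)⟩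
    have h1 : Nat.card G.edgeSet = Nat.card {v : V // v ≠ r} := (Nat.card_eq_of_bijective g hg).symm
    rw [h1, Nat.card_eq_fintype_card, Nat.card_eq_fintype_card, Fintype.card_subtype_compl]
    have : 0 < Fintype.card V := Fintype.card_pos_iff.mpr ⟨r⟩
    simp
    omega

/-! ### The tree: a vertex joined to `k` centres, each with `2k-2` leaves -/

/-- Vertices: centres `inl c`, the common neighbour `inr none` of the centres, and the leaves
`inr (some (c, l))`. -/
abbrev VT (k : ℕ) : Type := Fin k ⊕ Option (Fin k × Fin (2 * k - 2))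

def par {k : ℕ} : VT k → VT k
  | Sum.inl _ => Sum.inr none
  | Sum.inr none => Sum.inr none
  | Sum.inr (some (c, _)) => Sum.inl c

def dep {k : ℕ} : VT k → ℕ
  | Sum.inl _ => 1
  | Sum.inr none => 0
  | Sum.inr (some _) => 2

lemma dep_par {k : ℕ} : ∀ v : VT k, v ≠ Sum.inr none → dep (par v) < dep v := by
  rintro (c | _ | ⟨c, l⟩) h
  · simp [par, dep]
  · exact absurd rfl h
  · simp [par, dep]

/-- The tree `T_k`. -/
def T (k : ℕ) : SimpleGraph (VT k) where
  Adj u v := (u ≠ Sum.inr none ∧ v = par u) ∨ (v ≠ Sum.inr none ∧ u = par v)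
  symm := ⟨fun _ _ h => h.symm⟩
  loopless := ⟨by
    rintro v (⟨h1, h2⟩ | ⟨h1, h2⟩) <;>
    · have := dep_par v h1
      rw [← h2] at this
      exact lt_irrefl _ this⟩

lemma T_isTree (k : ℕ) : (T k).IsTree :=
  isTree_of_parent (Sum.inr none) par dep dep_par _ (fun _ _ => Iff.rfl)

lemma T_smaller {k : ℕ} (hk : 2 ≤ k) : SmallerClass (T k) k := by
  refine ⟨fun v => v.isLeft, ?_, ?_, ?_⟩
  · rintro (c | _ | ⟨c, l⟩) (c' | _ | ⟨c', l'⟩) h <;> simp [T, par] at h ⊢
  · have : {v : VT k // Sum.isLeft v = true} ≃ Fin k :=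
      { toFun := fun v => match v with
          | ⟨Sum.inl c, _⟩ => c
        invFun := fun c => ⟨Sum.inl c, rfl⟩
        left_inv := by
          rintro ⟨(c | c), h⟩
          · rfl
          · simp at h
        right_inv := fun c => rfl }
    rw [Nat.card_congr this, Nat.card_fin]
  · have hinj : Function.Injective (fun i : Fin k × Fin 1 => (⟨Sum.inr (some (i.1, ⟨i.2.1, by omega⟩)), rfl⟩ :
        {v : VT k // Sum.isLeft v = false})) := by
      intro i j hij
      have h1 := congrArg Subtype.val hij
      simp only [Sum.inr.injEq, Option.some.injEq, Prod.mk.injEq, Fin.mk.injEq] at h1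
      exact Prod.ext h1.1 (Fin.ext h1.2)
    calc k = Nat.card (Fin k × Fin 1) := by simp
      _ ≤ _ := Nat.card_le_card_of_injective _ hinj

/-! ### The host graph: `K_{m,m}` with a disjoint union of `K_k`s in both parts -/

/-- `K_{m,m}` plus, in each part, the disjoint union of complete graphs on the blocks
`{kq, ..., kq + k - 1}`. -/
def Hst (m k : ℕ) : SimpleGraph (Bool × Fin m) where
  Adj x y := x.1 ≠ y.1 ∨ (x.1 = y.1 ∧ x.2 ≠ y.2 ∧ x.2.1 / k = y.2.1 / k)
  symm := ⟨by
    rintro x y (h | ⟨h1, h2, h3⟩)
    · exact Or.inl h.symm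
    · exact Or.inr ⟨h1.symm, h2.symm, h3.symm⟩⟩
  loopless := ⟨by
    rintro x (h | ⟨_, h, _⟩) <;> exact h rfl⟩

instance (m k : ℕ) : DecidableRel (Hst m k).Adj := fun x y =>
  inferInstanceAs (Decidable (x.1 ≠ y.1 ∨ (x.1 = y.1 ∧ x.2 ≠ y.2 ∧ x.2.1 / k = y.2.1 / k)))

/-- block of `x`, without `x` -/
def blkm (m k : ℕ) (x : Bool × Fin m) : Finset (Bool × Fin m) :=
  univ.filter (fun y => x.1 = y.1 ∧ x.2 ≠ y.2 ∧ x.2.1 / k = y.2.1 / k)

lemma block_card_le {m k : ℕ} (hk : 0 < k) (x : Bool × Fin m) : (blkm m k x).card ≤ k - 1 := by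
  have hsub : (insert x (blkm m k x)).card ≤ k := by
    have : (insert x (blkm m k x)).card ≤ (Finset.Ico (x.2.1 / k * k) (x.2.1 / k * k + k)).card := by
      apply Finset.card_le_card_of_injOn (fun y => y.2.1)
      · intro y hy
        have h1 : x.2.1 / k = y.2.1 / k := by
          rw [Finset.mem_coe, Finset.mem_insert] at hy
          rcases hy with rfl | hy
          · rfl
          · exact (mem_filter.mp hy).2.2.2
        rw [Finset.mem_coe, Finset.mem_Ico, h1]
        have h2 := Nat.div_add_mod y.2.1 k
        have h3 := Nat.mod_lt y.2.1 hk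
        rw [mul_comm] at h2
        simp only
        omega
      · intro y hy z hz hyz
        have h1 : ∀ y ∈ insert x (blkm m k x), x.1 = y.1 := by
          intro y hy
          rw [Finset.mem_insert] at hy
          rcases hy with rfl | hy
          · rfl
          · exact (mem_filter.mp hy).2.1
        exact Prod.ext ((h1 y hy).symm.trans (h1 z hz)) (Fin.ext hyz)
    simpa using this
  rw [Finset.card_insert_of_notMem (by simp [blkm])] at hsub
  omega

lemma block_card_ge {q k : ℕ} (hk : 0 < k) (x : Bool × Fin (k * q)) : k - 1 ≤ (blkm (k * q) k x).card := by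
  have hxq : x.2.1 / k < q := by
    rw [Nat.div_lt_iff_lt_mul hk]
    exact lt_of_lt_of_eq x.2.2 (mul_comm _ _)
  have hlt : ∀ i : Fin k, x.2.1 / k * k + i.1 < k * q := by
    intro i
    calc x.2.1 / k * k + i.1 < x.2.1 / k * k + k := by have := i.2; omega
      _ = (x.2.1 / k + 1) * k := by ring
      _ ≤ q * k := Nat.mul_le_mul_right _ hxq
      _ = k * q := mul_comm _ _
  have h1 : k ≤ (insert x (blkm (k * q) k x)).card := by
    calc k = (univ : Finset (Fin k)).card := by simp
      _ ≤ _ := by
        apply Finset.card_le_card_of_injOn (fun i : Fin k => ((x.1, ⟨x.2.1 / k * k + i.1, hlt i⟩) : Bool × Fin (k * q)))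
        · intro i _
          rw [Finset.mem_coe, Finset.mem_insert]
          by_cases hi : x.2.1 = x.2.1 / k * k + i.1
          · left
            exact Prod.ext rfl (Fin.ext hi.symm)
          · right
            rw [blkm, mem_filter]
            refine ⟨mem_univ _, rfl, fun h => hi (by have := congrArg Fin.val h; simpa using this), ?_⟩
            have := i.2
            simp only
            rw [show x.2.1 / k * k + i.1 = i.1 + k * (x.2.1 / k) by ring, Nat.add_mul_div_left _ _ hk,
              Nat.div_eq_of_lt i.2, zero_add]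
        · intro i _ j _ hij
          simp only [Prod.mk.injEq, Fin.mk.injEq, true_and] at hij
          exact Fin.ext (by omega)
  rw [Finset.card_insert_of_notMem (by simp [blkm])] at h1
  omega

lemma degree_ge {q k : ℕ} (hk : 0 < k) (x : Bool × Fin (k * q)) :
    k * q + (k - 1) ≤ (Hst (k * q) k).degree x := by
  rw [← SimpleGraph.card_neighborFinset_eq_degree]
  have hinj : Function.Injective (fun j : Fin (k * q) => ((!x.1, j) : Bool × Fin (k * q))) := by
    intro a b h
    exact (Prod.mk.injEq _ _ _ _ ▸ h).2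
  have h1 : (univ : Finset (Fin (k * q))).image (fun j => ((!x.1, j) : Bool × Fin (k * q)))
      ∪ blkm (k * q) k x ⊆ (Hst (k * q) k).neighborFinset x := by
    intro y hy
    rw [SimpleGraph.mem_neighborFinset]
    rw [mem_union, mem_image] at hy
    rcases hy with ⟨j, -, rfl⟩ | hy
    · left
      simp
    · right
      exact (mem_filter.mp hy).2
  have h2 : Disjoint ((univ : Finset (Fin (k * q))).image (fun j => ((!x.1, j) : Bool × Fin (k * q))))
      (blkm (k * q) k x) := by
    rw [Finset.disjoint_left]
    intro y hy hy'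
    rw [mem_image] at hy
    obtain ⟨j, -, rfl⟩ := hy
    have := (mem_filter.mp hy').2.1
    simp at this
  have h3 := Finset.card_le_card h1
  rw [Finset.card_union_of_disjoint h2, Finset.card_image_of_injective _ hinj, card_univ,
    Fintype.card_fin] at h3
  have h4 := block_card_ge hk x
  omega

lemma edges_ge {q k : ℕ} (hk : 0 < k) :
    (k * q) * (k * q) + (k * q) * (k - 1) ≤ (Hst (k * q) k).edgeFinset.card := by
  have h1 := (Hst (k * q) k).sum_degrees_eq_twice_card_edges
  have h2 : ∑ x : Bool × Fin (k * q), (k * q + (k - 1)) ≤ ∑ x, (Hst (k * q) k).degree x :=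
    Finset.sum_le_sum (fun x _ => degree_ge hk x)
  rw [h1, Finset.sum_const, smul_eq_mul] at h2
  have h3 : (univ : Finset (Bool × Fin (k * q))).card = 2 * (k * q) := by simp
  rw [h3] at h2
  nlinarith

lemma free {m k : ℕ} (hk : 2 ≤ k) : (susp (T k)).Free (Hst m k) := by
  rintro ⟨φ⟩
  have hφ : ∀ x y, (susp (T k)).Adj x y → (Hst m k).Adj (φ x) (φ y) := fun x y h => φ.toHom.map_adj h
  have hinj : Function.Injective φ := φ.injective
  set w := φ none with hw
  -- every centre lies in the block of `w`
  have hcen : ∀ c : Fin k, φ (some (Sum.inl c)) ∈ blkm m k w := by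
    intro c
    have hadj := hφ none (some (Sum.inl c)) trivial
    rcases hadj with hne | hsame
    · exfalso
      -- common neighbours
      let S : Finset (Option (VT k)) :=
        insert (some (Sum.inr none)) ((univ : Finset (Fin (2 * k - 2))).map
          ⟨fun l => some (Sum.inr (some (c, l))), fun a b h => by simpa using h⟩)
      have hS : S.card = 2 * k - 1 := by
        rw [Finset.card_insert_of_notMem, Finset.card_map]
        · simp
          omega
        · intro h
          rw [mem_map] at h
          obtain ⟨x, -, hx⟩ := h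
          have hx' : some (Sum.inr (some (c, x))) = some (Sum.inr none) := hx
          simp at hx'
      have hsub : S.image φ ⊆ blkm m k w ∪ blkm m k (φ (some (Sum.inl c))) := by
        intro y hy
        rw [mem_image] at hy
        obtain ⟨s, hs, rfl⟩ := hy
        have hs1 : (Hst m k).Adj w (φ s) ∧ (Hst m k).Adj (φ (some (Sum.inl c))) (φ s) := by
          rw [mem_insert, mem_map] at hs
          rcases hs with rfl | ⟨l, -, rfl⟩
          · refine ⟨hφ _ _ trivial, hφ _ _ ?_⟩
            change (T k).Adj _ _
            left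
            exact ⟨by simp, rfl⟩
          · refine ⟨hφ _ _ trivial, hφ _ _ ?_⟩
            change (T k).Adj _ _
            right
            exact ⟨by simp, rfl⟩
        rw [mem_union]
        rcases hs1 with ⟨h1, h2⟩
        rcases h1 with h1 | h1
        · rcases h2 with h2 | h2
          · exfalso
            revert hne h1 h2
            generalize w.1 = a
            generalize (φ (some (Sum.inl c))).1 = b
            generalize (φ s).1 = d
            cases a <;> cases b <;> cases d <;> simp
          · right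
            exact mem_filter.mpr ⟨mem_univ _, h2⟩
        · left
          exact mem_filter.mpr ⟨mem_univ _, h1⟩
      have h1 := Finset.card_le_card hsub
      rw [Finset.card_image_of_injective _ hinj, hS] at h1
      have h2 := Finset.card_union_le (blkm m k w) (blkm m k (φ (some (Sum.inl c))))
      have h3 := block_card_le (show 0 < k by omega) w
      have h4 := block_card_le (show 0 < k by omega) (φ (some (Sum.inl c)))
      omega
    · exact mem_filter.mpr ⟨mem_univ _, hsame⟩
  have h1 : (univ : Finset (Fin k)).card ≤ (blkm m k w).card := by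
    apply Finset.card_le_card_of_injOn (fun c => φ (some (Sum.inl c)))
    · intro c _
      exact hcen c
    · intro c _ d _ hcd
      have := hinj hcd
      simpa using this
  have h2 := block_card_le (show 0 < k by omega) w
  simp at h1
  omega

lemma f_lt {m k : ℕ} (hk : 2 ≤ k) (hm : 1 ≤ m) : f (2 * m) k < m * m + m * (k - 1) := by
  unfold f
  rw [Finset.sup_lt_iff (by
    have : 0 < m * m := Nat.mul_pos hm hm
    exact lt_of_lt_of_le this (Nat.le_add_right _ _))]
  intro n0 hn0
  rw [mem_range] at hn0
  obtain ⟨c, rfl⟩ : ∃ c, k = c + 1 := ⟨k - 1, by omega⟩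
  have hc : 1 ≤ c := by omega
  simp only [Nat.add_sub_cancel]
  have hdiv : c * n0 / 2 * 2 ≤ c * n0 := Nat.div_mul_le_self _ _
  obtain ⟨n1, hn1⟩ : ∃ n1, n0 + n1 = 2 * m := ⟨2 * m - n0, by omega⟩
  have hsub : 2 * m - n0 = n1 := by omega
  rw [hsub]
  rcases Nat.lt_or_ge n0 (2 * m) with h | h
  · have h2 : 4 * (n0 * n1) ≤ (2 * m) * (2 * m) := by
      rw [← hn1]
      zify
      nlinarith [sq_nonneg ((n0 : ℤ) - n1)]
    have h3 : c * n0 < c * (2 * m) := Nat.mul_lt_mul_of_pos_left h hc
    nlinarith
  · have h4 : n0 = 2 * m := by omega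
    have h5 : n1 = 0 := by omega
    subst h4
    subst h5
    have : c * (2 * m) = 2 * (m * c) := by ring
    nlinarith [Nat.mul_pos hm hm]

/-- For every `k ≥ 2` there is a tree `T` on at least two vertices whose smaller colour class has size
`k` and such that `ex(2kq, T̂) ≥ (kq)² + kq(k-1) > f(2kq, k)` for every `q ≥ 1`. -/
theorem result :
    (∀ k : ℕ, 2 ≤ k → ∃ (V : Type) (_ : Fintype V) (T : SimpleGraph V), T.IsTree ∧ 2 ≤ Fintype.card V ∧
      SmallerClass T k ∧ ∀ q : ℕ, 1 ≤ q →
        f (2 * (k * q)) k < (k * q) * (k * q) + (k * q) * (k - 1) ∧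
        (k * q) * (k * q) + (k * q) * (k - 1) ≤ SimpleGraph.extremalNumber (2 * (k * q)) (susp T)) ∧
    ¬ (∀ (V : Type) (_ : Fintype V) (T : SimpleGraph V) (k : ℕ), T.IsTree → 2 ≤ Fintype.card V →
      SmallerClass T k → ∃ n0 : ℕ, ∀ n : ℕ, n0 ≤ n →
        SimpleGraph.extremalNumber n (susp T) ≤ f n k) := by
  have key : ∀ k : ℕ, 2 ≤ k → ∃ (V : Type) (_ : Fintype V) (T : SimpleGraph V), T.IsTree ∧
      2 ≤ Fintype.card V ∧
      SmallerClass T k ∧ ∀ q : ℕ, 1 ≤ q →
        f (2 * (k * q)) k < (k * q) * (k * q) + (k * q) * (k - 1) ∧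
        (k * q) * (k * q) + (k * q) * (k - 1) ≤ SimpleGraph.extremalNumber (2 * (k * q)) (susp T) := by
    intro k hk
    refine ⟨VT k, inferInstance, T k, T_isTree k, ?_, T_smaller hk, ?_⟩
    · simp only [VT, Fintype.card_sum, Fintype.card_fin, Fintype.card_option]
      omega
    · intro q hq
      refine ⟨f_lt hk (Nat.mul_pos (by omega) hq), ?_⟩
      have h1 := SimpleGraph.card_edgeFinset_le_extremalNumber (free (m := k * q) hk)
      rw [show Fintype.card (Bool × Fin (k * q)) = 2 * (k * q) by simp] at h1
      exact le_trans (edges_ge (by omega)) h1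
  refine ⟨key, ?_⟩
  intro h
  obtain ⟨V, hV, T, h1, h2, h3, h4⟩ := key 2 le_rfl
  obtain ⟨n0, hn0⟩ := h V hV T 2 h1 h2 h3
  have h5 := h4 (n0 + 1) (by omega)
  have h6 := hn0 (2 * (2 * (n0 + 1))) (by omega)
  omega

end Pool.Agent.Results.MP_6784b8_co.SpiderSuspension
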